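import Pool.Agent.U72.Pol.Final

/-!
# The relation `(λ⁺, λ⁺) → (λ⁺, ℵ₁; λ, λ)` is independent of GCH, relative to Chang's transfer
property at `λ`

Assume GCH. There is a notion of forcing (a `σ`-closed collapse of `2 ^ ℵ₁` to `ℵ₁` times a
finite support iteration of ccc forcings of size `ℵ₁`) all of whose conditions force GCH, force
that `ℵ₁` and all cardinals above `ℵ₂` of the ground model are still cardinals and that `ℵ₂` of
the ground model has size `ℵ₁`, and force the positive relation `(λ⁺, λ⁺) → (λ⁺, ℵ₁; λ, λ)` for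
every uncountable cardinal `λ` of countable cofinality such that Chang's transfer property
`(λ⁺, λ) ↠ (ℵ₁, ℵ₀)` holds in the ground model.

The second clause displays the other half of the independence, which was known before in this
library: over every model of GCH the failure of the relation can be forced, with GCH and all
cardinals preserved.
-/

set_option autoImplicit false

namespace Pool.Agent.Results.MP_d40573_lc.PositiveFromChang

open Cardinal Ordinal Pool.Agent.Helper980.G
open Pool.Agent.Helper669.Forcing (fnot CardinalsPreserved)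
open Pool.Agent.U72.Pol (StaysCardinal)

/-- The generalized continuum hypothesis. -/
def GCH : Prop := ∀ ν : Cardinal.{0}, ℵ₀ ≤ ν → 2 ^ ν = Order.succ ν

/-- Chang's transfer property `(κ⁺, κ) ↠ (ℵ₁, ℵ₀)`: for every function `F` from finite sequences of
elements of `κ⁺` to `κ⁺` there is a set `X ⊆ κ⁺` which is closed under `F` and has exactly `ℵ₁`
elements, exactly `ℵ₀` of which are smaller than `κ` (that is, have fewer than `κ`
predecessors). -/
def ChangTransfer (κ : Cardinal.{0}) : Prop :=
  ∀ F : List (Order.succ κ).ord.ToType → (Order.succ κ).ord.ToType,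
    ∃ X : Set (Order.succ κ).ord.ToType,
      (∀ l : List (Order.succ κ).ord.ToType, (∀ x ∈ l, x ∈ X) → F l ∈ X) ∧
      #X = ℵ_ 1 ∧ #{x | x ∈ X ∧ #(Set.Iio x) < κ} = ℵ₀

/-- Some notion of forcing is such that all its conditions force GCH, force that `ℵ₁` and all
cardinals above `ℵ₂` remain cardinals and that `ℵ₂` gets size `ℵ₁`, and force the relation
`(λ⁺, λ⁺) → (λ⁺, ℵ₁; λ, λ)` for all uncountable `λ` of countable cofinality with Chang's transfer
property. -/
def PositiveForced : Prop :=
  ∃ (P : Type) (_ : Preorder P), Nonempty P ∧ ∀ p : P,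
    p ∈ ForcesGCH P ∧
    p ∈ StaysCardinal P (ℵ_ 1) ∧
    (∀ ν : Cardinal.{0}, ℵ_ 2 < ν → p ∈ StaysCardinal P ν) ∧
    p ∈ SizeLe P (ℵ_ 2 : Cardinal.{0}).ord.ToType (ℵ_ 1 : Cardinal.{0}).ord.ToType ∧
    ∀ lam : Cardinal.{0}, ℵ₀ < lam → lam.ord.cof = ℵ₀ → ChangTransfer lam →
      p ∈ RelationS P (Order.succ lam).ord.ToType lam.ord.ToType
        (ℵ_ 1 : Cardinal.{0}).ord.ToType

/-- Some notion of forcing is such that all its conditions force that all cardinals are
preserved, that GCH holds, and that the relation `(λ⁺, λ⁺) → (λ⁺, ℵ₁; λ, λ)` fails. -/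
def FailureForced (lam : Cardinal.{0}) : Prop :=
  ∃ (P : Type) (_ : Preorder P), Nonempty P ∧ ∀ p : P,
    p ∈ CardinalsPreserved.{0, 0} P ∧ p ∈ ForcesGCH P ∧
    p ∈ fnot (RelationS P (Order.succ lam).ord.ToType lam.ord.ToType
      (ℵ_ 1 : Cardinal.{0}).ord.ToType)

theorem chang_of_transfer {κ : Cardinal.{0}} (h : ChangTransfer κ) :
    Pool.Agent.U72.Pol.Chang κ ℵ₀ := by
  intro F
  obtain ⟨X, h1, h2, h3⟩ := h F
  exact ⟨X, h1, by rw [succ_aleph0]; exact h2, h3⟩

theorem nonempty_Px : Nonempty Pool.Agent.U72.Pol.Px :=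
  ⟨(Classical.arbitrary _, ⟨∅, Pool.Agent.W684.FM.valid_empty _⟩)⟩

/-- **Main theorem.** -/
theorem result (hG : GCH) :
    PositiveForced ∧
      ∀ lam : Cardinal.{0}, ℵ₀ < lam → lam.ord.cof = ℵ₀ → FailureForced lam := by
  refine ⟨⟨Pool.Agent.U72.Pol.Px, inferInstance, nonempty_Px, fun p => ?_⟩,
    fun κ h0 h1 => forcedS hG κ h0 h1⟩
  obtain ⟨h1, h2, h3, h4, h5⟩ := Pool.Agent.U72.Pol.main hG p
  exact ⟨h1, h2, h3, h4, fun κ hκ hc hC => (h5 κ hκ hc (chang_of_transfer hC)).2⟩

end Pool.Agent.Results.MP_d40573_lc.PositiveFromChang
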